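import Mathlib
import Pool.Agent.Lib.MP_e6ed9e_al.PL.QDefs

/-!
# Affine groups and the reduction: statements of the modules
-/

namespace SpreadPerm.RD

open MulAction

/-- `G` acts on `Ω`, identified by `e` with the elementary abelian `p`-group `V`, by affine maps;
all translations occur. -/
def Aff (p : ℕ) (V G Ω : Type) [AddCommGroup V] [Group G] [MulAction G Ω] (e : Ω ≃ V) : Prop :=
  p.Prime ∧ (∀ v : V, p • v = 0) ∧ (∀ v : V, ∃ g : G, ∀ ω : Ω, e (g • ω) = e ω + v) ∧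
    ∀ g : G, ∃ (L : V ≃+ V) (c : V), ∀ ω : Ω, e (g • ω) = L (e ω) + c

/-- AFF1: two inequivalent hyperplanes. -/
def StAff1 : Prop := ∀ (p : ℕ) (V G Ω : Type) [AddCommGroup V] [Finite V] [Group G] [Finite G]
  [Fintype Ω] [MulAction G Ω] (e : Ω ≃ V), Aff p V G Ω e → ∀ W₁ W₂ : AddSubgroup V,
  W₁.index = p → W₂.index = p →
  (∀ (g : G) (L : V ≃+ V) (c : V), (∀ ω : Ω, e (g • ω) = L (e ω) + c) →
    W₁.map L.toAddMonoidHom ≠ W₂) →
  NonSpreading G Ω

/-- AFF2: one class of hyperplanes. -/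
def StAff2 : Prop := ∀ (p : ℕ) (V G Ω : Type) [AddCommGroup V] [Finite V] [Group G] [Finite G]
  [Fintype Ω] [MulAction G Ω] (e : Ω ≃ V), Aff p V G Ω e →
  (∀ W₁ W₂ : AddSubgroup V, W₁.index = p → W₂.index = p →
    ∃ (g : G) (L : V ≃+ V) (c : V), (∀ ω : Ω, e (g • ω) = L (e ω) + c) ∧
      W₁.map L.toAddMonoidHom = W₂) →
  PL.QI G Ω

/-- AFF: affine spreading groups are QI. -/
def StAff : Prop := ∀ (p : ℕ) (V G Ω : Type) [AddCommGroup V] [Finite V] [Group G] [Finite G]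
  [Fintype Ω] [MulAction G Ω] (e : Ω ≃ V), Aff p V G Ω e → Spreading G Ω → PL.QI G Ω

end SpreadPerm.RD
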